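import Pool.Agent.helper23.TH.Spec

set_option autoImplicit false

open scoped BigOperators
open Classical

namespace Pool.Agent.helper23.TH

theorem EC_uniq {V K : Type*} {χ : V → V → K} (h : PC χ) {a b d : V} (hab : a ≠ b) (had : a ≠ d)
    (e : χ a b = χ a d) : b = d := by
  by_contra hne
  exact h.proper a b d hab had hne e

theorem EC_second (V K : Type) [Fintype V] (χ : V → V → K) (h : PC χ) (u w : V × V) :
    (Finset.univ.filter (fun z => Ga χ w z ∧ Re z u)).card ≤ 4 := by
  have key : ∀ P : V × V → Prop,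
      (∀ z z', Ga χ w z → Ga χ w z' → P z → P z' → z = z') →
        (Finset.univ.filter (fun z => Ga χ w z ∧ P z)).card ≤ 1 := by
    intro P hP
    rw [Finset.card_le_one]
    intro z hz z' hz'
    simp only [Finset.mem_filter, Finset.mem_univ, true_and] at hz hz'
    exact hP z z' hz.1 hz'.1 hz.2 hz'.2
  have hfst : ∀ a z z', Ga χ w z → Ga χ w z' → z.1 = a → z'.1 = a → z = z' := by
    intro a z z' hz hz' h1 h2
    have e : z.1 = z'.1 := h1.trans h2.symm
    have e2 : χ w.2 z.2 = χ w.2 z'.2 := by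
      rw [← hz.2.2.2.2.2.2, ← hz'.2.2.2.2.2.2, e]
    exact Prod.ext e (EC_uniq h hz.2.2.2.2.2.1 hz'.2.2.2.2.2.1 e2)
  have hsnd : ∀ a z z', Ga χ w z → Ga χ w z' → z.2 = a → z'.2 = a → z = z' := by
    intro a z z' hz hz' h1 h2
    have e : z.2 = z'.2 := h1.trans h2.symm
    have e2 : χ w.1 z.1 = χ w.1 z'.1 := by
      rw [hz.2.2.2.2.2.2, hz'.2.2.2.2.2.2, e]
    exact Prod.ext (EC_uniq h hz.2.2.1 hz'.2.2.1 e2) e
  have h1 := key (fun z => z.1 = u.1) (fun z z' a b c d => hfst u.1 z z' a b c d)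
  have h2 := key (fun z => z.1 = u.2) (fun z z' a b c d => hfst u.2 z z' a b c d)
  have h3 := key (fun z => z.2 = u.1) (fun z z' a b c d => hsnd u.1 z z' a b c d)
  have h4 := key (fun z => z.2 = u.2) (fun z z' a b c d => hsnd u.2 z z' a b c d)
  have hsub : Finset.univ.filter (fun z => Ga χ w z ∧ Re z u) ⊆
      ((Finset.univ.filter (fun z : V × V => Ga χ w z ∧ z.1 = u.1)) ∪
        (Finset.univ.filter (fun z : V × V => Ga χ w z ∧ z.1 = u.2))) ∪
      ((Finset.univ.filter (fun z : V × V => Ga χ w z ∧ z.2 = u.1)) ∪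
        (Finset.univ.filter (fun z : V × V => Ga χ w z ∧ z.2 = u.2))) := by
    intro z hz
    simp only [Finset.mem_filter, Finset.mem_univ, true_and, Finset.mem_union] at hz ⊢
    rcases hz with ⟨hg, h | h | h | h⟩
    · exact Or.inl (Or.inl ⟨hg, h⟩)
    · exact Or.inl (Or.inr ⟨hg, h⟩)
    · exact Or.inr (Or.inl ⟨hg, h⟩)
    · exact Or.inr (Or.inr ⟨hg, h⟩)
  refine (Finset.card_le_card hsub).trans ?_
  refine (Finset.card_union_le _ _).trans ?_
  have a := Finset.card_union_le (Finset.univ.filter (fun z : V × V => Ga χ w z ∧ z.1 = u.1))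
    (Finset.univ.filter (fun z : V × V => Ga χ w z ∧ z.1 = u.2))
  have b := Finset.card_union_le (Finset.univ.filter (fun z : V × V => Ga χ w z ∧ z.2 = u.1))
    (Finset.univ.filter (fun z : V × V => Ga χ w z ∧ z.2 = u.2))
  omega

theorem EC_sumdg {V : Type} [Fintype V] (A : V → V → Prop) :
    (∑ v, (dg A Finset.univ v : ℝ)) =
      (((Finset.univ : Finset (V × V)).filter (fun q => A q.1 q.2)).card : ℝ) := by
  have h : (∑ v, dg A Finset.univ v) =
      ((Finset.univ : Finset (V × V)).filter (fun q => A q.1 q.2)).card := by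
    rw [Finset.card_eq_sum_card_fiberwise (f := Prod.fst) (t := Finset.univ) (by simp)]
    refine Finset.sum_congr rfl fun v _ => ?_
    unfold dg
    refine Finset.card_bij (fun w _ => (v, w)) ?_ ?_ ?_
    · intro w hw
      simpa using hw
    · intro w _ w' _ e
      exact (Prod.ext_iff.1 e).2
    · rintro ⟨a, b⟩ hb
      simp only [Finset.mem_filter, Finset.mem_univ, true_and] at hb
      refine ⟨b, ?_, ?_⟩
      · simp only [Finset.mem_filter, Finset.mem_univ, true_and]
        rw [← hb.2]; exact hb.1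
      · rw [← hb.2]
  rw [← h]
  push_cast
  rfl

theorem EC_first (n m : ℕ) (χ : Fin n → Fin n → Fin m) (h : PC χ) (hn : 2 ≤ n)
    (hm : 4 * (m : ℝ) ≤ n * (n - 1)) :
    (n : ℝ) ^ 4 / (8 * m) ≤ ∑ v, (dg (Ga χ) Finset.univ v : ℝ) := by
  rw [EC_sumdg]
  set S : Finset (Fin n × Fin n) := Finset.univ.offDiag with hS
  set f : Fin n × Fin n → Fin m := fun p => χ p.1 p.2 with hf
  set G := (Finset.univ : Finset ((Fin n × Fin n) × (Fin n × Fin n))).filter
    (fun q => Ga χ q.1 q.2) with hG
  set T := (S ×ˢ S).filter (fun q => f q.1 = f q.2) with hT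
  have hScard : (S.card : ℝ) = n * (n - 1) := by
    rw [hS, Finset.offDiag_card, Finset.card_univ, Fintype.card_fin]
    have : n ≤ n * n := Nat.le_mul_self n
    push_cast [Nat.cast_sub this]
    ring
  -- T is large
  have hTc : (T.card : ℝ) = ∑ c : Fin m, ((S.filter (fun p => f p = c)).card : ℝ) ^ 2 := by
    have h0 : T.card = ∑ c : Fin m, (S.filter (fun p => f p = c)).card ^ 2 := by
      rw [Finset.card_eq_sum_card_fiberwise (f := fun q => f q.1) (t := Finset.univ) (by simp)]
      refine Finset.sum_congr rfl fun c _ => ?_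
      rw [sq, ← Finset.card_product]
      congr 1
      ext q
      simp only [hT, Finset.mem_filter, Finset.mem_product]
      constructor
      · rintro ⟨⟨⟨a, b⟩, d⟩, e⟩
        exact ⟨⟨a, e⟩, b, d ▸ e⟩
      · rintro ⟨⟨a, e⟩, b, d⟩
        exact ⟨⟨⟨a, b⟩, e.trans d.symm⟩, e⟩
    rw [h0]
    push_cast
    rfl
  have hSc : (S.card : ℝ) = ∑ c : Fin m, ((S.filter (fun p => f p = c)).card : ℝ) := by
    rw [Finset.card_eq_sum_card_fiberwise (f := f) (t := Finset.univ) (by simp)]
    push_cast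
    rfl
  have hCS : (S.card : ℝ) ^ 2 ≤ m * T.card := by
    rw [hTc, hSc]
    have := sq_sum_le_card_mul_sum_sq (s := (Finset.univ : Finset (Fin m)))
      (f := fun c => ((S.filter (fun p => f p = c)).card : ℝ))
    simpa using this
  -- T is covered
  have hcov : T ⊆ (G.image (fun q => ((q.1.1, q.2.1), (q.1.2, q.2.2)))) ∪
      (S.image (fun p => (p, p)) ∪ S.image (fun p => (p, p.swap))) := by
    rintro ⟨⟨x, x'⟩, ⟨y, y'⟩⟩ hq
    simp only [hT, hS, hf, Finset.mem_filter, Finset.mem_product, Finset.mem_offDiag,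
      Finset.mem_univ, true_and] at hq
    obtain ⟨⟨hx, hy⟩, hc⟩ := hq
    simp only [Finset.mem_union, Finset.mem_image]
    by_cases hxy : x = y
    · subst hxy
      have : x' = y' := EC_uniq h hx hy hc
      subst this
      right; left
      exact ⟨(x, x'), by simp [hS, hx], rfl⟩
    by_cases hxy' : x' = y'
    · subst hxy'
      have : x = y := EC_uniq h (Ne.symm hx) (Ne.symm hy) (by rw [h.symm x' x, h.symm x' y]; exact hc)
      exact absurd this hxy
    by_cases h1 : x = y'
    · subst h1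
      have : x' = y := EC_uniq h hx (Ne.symm hy) (by rw [h.symm x y]; exact hc)
      subst this
      right; right
      exact ⟨(x, x'), by simp [hS, hx], rfl⟩
    by_cases h2 : y = x'
    · subst h2
      have : x = y' := EC_uniq h (Ne.symm hx) hy (by rw [h.symm y x]; exact hc)
      exact absurd this h1
    left
    refine ⟨((x, y), (x', y')), ?_, rfl⟩
    simp only [hG, Finset.mem_filter, Finset.mem_univ, true_and]
    exact ⟨hxy, hxy', hx, h1, h2, hy, hc⟩
  have hTle : (T.card : ℝ) ≤ G.card + 2 * S.card := by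
    have a := Finset.card_le_card hcov
    have b := Finset.card_union_le (G.image (fun q => ((q.1.1, q.2.1), (q.1.2, q.2.2))))
      (S.image (fun p => (p, p)) ∪ S.image (fun p => (p, p.swap)))
    have c := Finset.card_union_le (S.image (fun p => (p, p))) (S.image (fun p => (p, p.swap)))
    have d := Finset.card_image_le (s := G)
      (f := fun q : (Fin n × Fin n) × (Fin n × Fin n) => ((q.1.1, q.2.1), (q.1.2, q.2.2)))
    have e := Finset.card_image_le (s := S) (f := fun p : Fin n × Fin n => (p, p))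
    have g := Finset.card_image_le (s := S) (f := fun p : Fin n × Fin n => (p, p.swap))
    have : T.card ≤ G.card + 2 * S.card := by omega
    exact_mod_cast this
  have hm0 : 0 < m := by
    have : (χ ⟨0, by omega⟩ ⟨0, by omega⟩ : Fin m).1 < m := (χ ⟨0, by omega⟩ ⟨0, by omega⟩).2
    omega
  have hmR : (0 : ℝ) < m := by exact_mod_cast hm0
  have hnR : (2 : ℝ) ≤ n := by exact_mod_cast hn
  rw [div_le_iff₀ (by positivity)]
  rw [hScard] at hCS hTle
  set g : ℝ := (G.card : ℝ) with hg
  have e1 : ((n : ℝ) * (n - 1)) ^ 2 ≤ m * (g + 2 * (n * (n - 1))) :=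
    hCS.trans (mul_le_mul_of_nonneg_left hTle hmR.le)
  have e2 : 0 ≤ (n : ℝ) * (n - 1) := by nlinarith
  have e3 : 2 * (m : ℝ) * (n * (n - 1)) ≤ ((n : ℝ) * (n - 1)) ^ 2 / 2 := by nlinarith
  have e4 : (n : ℝ) ^ 4 ≤ 4 * ((n : ℝ) * (n - 1)) ^ 2 := by
    have h1 : (n : ℝ) ≤ 2 * (n - 1) := by linarith
    have h2 : (n : ℝ) ^ 2 ≤ (2 * ((n : ℝ) - 1)) ^ 2 := by
      apply pow_le_pow_left₀ (by linarith) h1
    have h3 := mul_le_mul_of_nonneg_left h2 (sq_nonneg (n : ℝ))
    nlinarith
  nlinarith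

theorem EC : EC_stmt := ⟨EC_first, EC_second⟩

end Pool.Agent.helper23.TH
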