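import Pool.Agent.helper48.TH.Spec

set_option autoImplicit false

namespace TP.TW

open DP MeasureTheory Finset

private lemma INFb_card {n : ℕ} (P : (Fin n → Bool) → Prop) [DecidablePred P] (c : ℝ) :
    av (fun x => if P x then c else 0) = c * ((#{x | P x} : ℝ) / 2 ^ n) := by
  unfold av
  rw [← Finset.sum_filter, Finset.sum_const, nsmul_eq_mul]
  ring

private lemma INFb_mul {n : ℕ} (f : (Fin n → Bool) → ℝ) (c : ℝ) : av (fun x => c * f x) = c * av f := by
  unfold av
  rw [← Finset.mul_sum]
  ring

open Classical in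
theorem INF (she : SHE_stmt) (yng : YNG_stmt) (cxe : CXE_stmt) : INF_stmt := by
  intro n κ T E F Λ A M p hp hE hF hM
  have hp0 : 0 ≤ p := by rw [hp]; positivity
  rcases hp0.eq_or_lt with h0 | hpos
  · rw [← h0]
    simp only [zero_mul, mul_zero, add_zero]
    apply le_of_eq
    apply Finset.sum_eq_zero
    intro τ _
    have h1 : (#{x | E x} : ℝ) = 0 := by
      rw [← h0] at hp
      have h2 : (2 : ℝ) ^ n ≠ 0 := by positivity
      rw [eq_comm, div_eq_zero_iff] at hp
      rcases hp with h | h
      · exact h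
      · exact absurd h h2
    have h3 : #{x | E x ∧ F τ x} ≤ #{x | E x} := by
      apply Finset.card_le_card
      intro x hx
      simp only [mem_filter, mem_univ, true_and] at hx ⊢
      exact hx.1
    have h4 : (#{x | E x ∧ F τ x} : ℝ) ≤ 0 := by
      rw [← h1]
      exact_mod_cast h3
    have h5 : (#{x | E x ∧ F τ x} : ℝ) = 0 := le_antisymm h4 (Nat.cast_nonneg _)
    rw [h5, zero_div]
  · set f : (Fin n → Bool) → ℝ := fun x => if E x then 1 / p else 0 with hf
    have hf0 : ∀ x, 0 ≤ f x := by
      intro x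
      simp only [hf]
      split_ifs
      · positivity
      · exact le_rfl
    have hav : av f = 1 := by
      rw [hf, INFb_card, ← hp]
      field_simp
    have hph : av (fun x => ph (f x)) = Real.log (1 / p) := by
      have h1 : (fun x => ph (f x)) = fun x => if E x then ph (1 / p) else 0 := by
        funext x
        simp only [hf]
        split_ifs
        · rfl
        · simp [ph]
      rw [h1, INFb_card, ← hp]
      unfold ph
      field_simp
    have hEt : Et f = Real.log (1 / p) := by
      unfold Et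
      rw [hph, hav]
      simp [ph]
    obtain ⟨d, hd0, hdsum, hdA⟩ := she n f hf0
    have hdep : ∀ x y, (∀ i ∈ Λ, x i = y i) → f x = f y := by
      intro x y hxy
      simp only [hf]
      by_cases h : E x
      · rw [if_pos h, if_pos ((hE x y hxy).1 h)]
      · rw [if_neg h, if_neg (fun h' => h ((hE x y hxy).2 h'))]
    have one : ∀ τ ∈ T, (#{x | E x ∧ F τ x} : ℝ) / 2 ^ n ≤
        p * ∑ i ∈ Λ, (if i ∈ A τ then d i else 0) + 2 * p * ((#{x | F τ x} : ℝ) / 2 ^ n) := by
      intro τ hτ
      obtain ⟨c1, c2, c3, c4⟩ := cxe n (A τ) f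
      have e1 : (#{x | E x ∧ F τ x} : ℝ) / 2 ^ n = p * av (fun x => if F τ x then f x else 0) := by
        have h1 : (fun x => if F τ x then f x else 0) = fun x => if E x ∧ F τ x then 1 / p else 0 := by
          funext x
          simp only [hf]
          by_cases h2 : F τ x <;> by_cases h3 : E x <;> simp [h2, h3]
        rw [h1, INFb_card]
        field_simp
      have e2 := c3 (F τ) (hF τ hτ)
      have e3 := yng n (cex (A τ) f) (F τ) (c1 hf0) (c2.trans hav)
      have e4 : Et (cex (A τ) f) ≤ ∑ i ∈ A τ ∩ Λ, d i := by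
        rw [c4 Λ hdep]
        exact hdA _
      have e5 : ∑ i ∈ A τ ∩ Λ, d i = ∑ i ∈ Λ, (if i ∈ A τ then d i else 0) := by
        rw [← Finset.sum_filter]
        apply Finset.sum_congr _ (fun _ _ => rfl)
        ext i
        simp only [mem_inter, mem_filter]
        tauto
      rw [e1, e2]
      have e6 : av (fun x => if F τ x then cex (A τ) f x else 0) ≤ ∑ i ∈ Λ, (if i ∈ A τ then d i else 0) + 2 * ((#{x | F τ x} : ℝ) / 2 ^ n) := by
        linarith
      have e7 := mul_le_mul_of_nonneg_left e6 hp0
      linarith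
    have s1 := Finset.sum_le_sum one
    rw [Finset.sum_add_distrib, ← Finset.mul_sum, ← Finset.mul_sum] at s1
    have s2 : ∑ τ ∈ T, ∑ i ∈ Λ, (if i ∈ A τ then d i else 0) ≤ M * Real.log (1 / p) := by
      rw [Finset.sum_comm]
      have h1 : ∀ i ∈ Λ, ∑ τ ∈ T, (if i ∈ A τ then d i else 0) ≤ M * d i := by
        intro i hi
        rw [← Finset.sum_filter, Finset.sum_const, nsmul_eq_mul]
        apply mul_le_mul_of_nonneg_right _ (hd0 i)
        exact_mod_cast hM i hi
      have h2 := Finset.sum_le_sum h1
      rw [← Finset.mul_sum] at h2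
      have h3 : ∑ i ∈ Λ, d i ≤ ∑ i, d i := Finset.sum_le_sum_of_subset_of_nonneg (Finset.subset_univ _) (fun i _ _ => hd0 i)
      rw [hdsum, hEt] at h3
      have h4 : (M : ℝ) * ∑ i ∈ Λ, d i ≤ M * Real.log (1 / p) := mul_le_mul_of_nonneg_left h3 (Nat.cast_nonneg _)
      linarith
    have s3 := mul_le_mul_of_nonneg_left s2 hp0
    linarith

end TP.TW
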