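import Pool.Agent.helper48.TH.Spec

set_option autoImplicit false

namespace TP.TW

open DP MeasureTheory Finset

open Classical in
theorem INP (inf : INF_stmt) (prn : PRN_stmt) : INP_stmt := by
  intro κ T E F Λ A M hE hF hM
  obtain ⟨Ω, hΩ⟩ : ∃ Ω : Finset V, Ω = Λ ∪ T.biUnion A := ⟨_, rfl⟩
  have hΛΩ : ∀ v ∈ Λ, v ∈ Ω := fun v hv => by rw [hΩ]; exact mem_union_left _ hv
  have hAΩ : ∀ τ ∈ T, ∀ v ∈ A τ, v ∈ Ω := fun τ hτ v hv => by
    rw [hΩ]
    exact mem_union_right _ (mem_biUnion.2 ⟨τ, hτ, hv⟩)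
  obtain ⟨ε, hε⟩ : ∃ ε : Fin (#Ω) → V, ε = fun i => (Ω.equivFin.symm i).1 := ⟨_, rfl⟩
  have hinj : Function.Injective ε := by
    intro i j hij
    rw [hε] at hij
    exact Ω.equivFin.symm.injective (Subtype.ext hij)
  obtain ⟨xt, hxt⟩ : ∃ xt : (Fin (#Ω) → Bool) → (V → Bool), ∀ x v (h : v ∈ Ω), xt x v = x (Ω.equivFin ⟨v, h⟩) :=
    ⟨fun x v => if h : v ∈ Ω then x (Ω.equivFin ⟨v, h⟩) else false, fun x v h => by simp only [h, dite_true]⟩
  have hxe : ∀ (β : V → Bool) (v : V), v ∈ Ω → xt (fun i => β (ε i)) v = β v := by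
    intro β v h
    rw [hxt _ v h, hε]
    simp only [Equiv.symm_apply_apply]
  have eE : ∀ β : V → Bool, xt (fun i => β (ε i)) ∈ E ↔ β ∈ E := fun β => hE _ _ (fun v hv => hxe β v (hΛΩ v hv))
  have eF : ∀ τ ∈ T, ∀ β : V → Bool, xt (fun i => β (ε i)) ∈ F τ ↔ β ∈ F τ := fun τ hτ β =>
    hF τ hτ _ _ (fun v hv => hxe β v (hAΩ τ hτ v hv))
  have pE : Pr E = (#{x : Fin (#Ω) → Bool | xt x ∈ E} : ℝ) / 2 ^ (#Ω) := by
    rw [← prn (#Ω) ε hinj (fun x => xt x ∈ E)]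
    congr 1
    ext β
    exact (eE β).symm
  have pF : ∀ τ ∈ T, Pr (F τ) = (#{x : Fin (#Ω) → Bool | xt x ∈ F τ} : ℝ) / 2 ^ (#Ω) := by
    intro τ hτ
    rw [← prn (#Ω) ε hinj (fun x => xt x ∈ F τ)]
    congr 1
    ext β
    exact (eF τ hτ β).symm
  have pEF : ∀ τ ∈ T, Pr (E ∩ F τ) = (#{x : Fin (#Ω) → Bool | xt x ∈ E ∧ xt x ∈ F τ} : ℝ) / 2 ^ (#Ω) := by
    intro τ hτ
    have h1 := prn (#Ω) ε hinj (fun x => xt x ∈ E ∧ xt x ∈ F τ)
    have h2 : E ∩ F τ = {β : V → Bool | xt (fun i => β (ε i)) ∈ E ∧ xt (fun i => β (ε i)) ∈ F τ} := by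
      ext β
      exact (and_congr (eE β) (eF τ hτ β)).symm
    rw [h2]
    refine h1.trans ?_
    apply congrArg (fun m : ℕ => (m : ℝ) / 2 ^ (#Ω))
    apply congrArg
    ext x
    simp only [mem_filter]
  have hv : ∀ v (h : v ∈ Ω), ε (Ω.equivFin ⟨v, h⟩) = v := by
    intro v h
    rw [hε]
    simp only [Equiv.symm_apply_apply]
  have main := inf (#Ω) κ T (fun x => xt x ∈ E) (fun τ x => xt x ∈ F τ) (univ.filter fun i => ε i ∈ Λ) (fun τ => univ.filter fun i => ε i ∈ A τ) M (Pr E) pE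
    (by
      intro x y hxy
      apply hE
      intro v hv'
      rw [hxt x v (hΛΩ v hv'), hxt y v (hΛΩ v hv')]
      apply hxy
      rw [mem_filter]
      exact ⟨mem_univ _, by rw [hv]; exact hv'⟩)
    (by
      intro τ hτ x y hxy
      apply hF τ hτ
      intro v hv'
      rw [hxt x v (hAΩ τ hτ v hv'), hxt y v (hAΩ τ hτ v hv')]
      apply hxy
      rw [mem_filter]
      exact ⟨mem_univ _, by rw [hv]; exact hv'⟩)
    (by
      intro i hi
      rw [mem_filter] at hi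
      refine le_trans (le_of_eq ?_) (hM (ε i) hi.2)
      congr 1
      apply Finset.filter_congr
      intro τ _
      rw [mem_filter]
      exact ⟨fun h => h.2, fun h => ⟨mem_univ _, h⟩⟩)
  rw [Finset.sum_congr rfl pEF, Finset.sum_congr rfl pF]
  exact main

end TP.TW
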